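import Pool.Agent.H18.SAP.Stmts

set_option autoImplicit false

namespace SAP
open Finset

private theorem gd5_prim_dvd (Y p : ℕ) (hp : p.Prime) (hY : p ≤ Y) : p ∣ primorial Y := by
  unfold primorial
  apply Finset.dvd_prod_of_mem
  simp [hp, Nat.lt_succ_of_le hY]

private theorem gd5_prim_le (Y p : ℕ) (hp : p.Prime) (h : p ∣ primorial Y) : p ≤ Y := by
  unfold primorial at h
  rw [Prime.dvd_finset_prod_iff hp.prime] at h
  obtain ⟨q, hq, hpq⟩ := h
  simp only [Finset.mem_filter, Finset.mem_range] at hq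
  have := (Nat.prime_dvd_prime_iff_eq hp hq.2).mp hpq
  omega

private theorem gd5_tot_le (Y p : ℕ) (hp : p.Prime) (h : p ∣ (primorial Y).totient) : p ≤ Y := by
  have hpos : primorial Y ≠ 0 := (primorial_pos Y).ne'
  have h1 := Nat.totient_mul_prod_primeFactors (primorial Y)
  have h2 : p ∣ primorial Y * ∏ q ∈ (primorial Y).primeFactors, (q - 1) := by
    rw [← h1]
    exact Dvd.dvd.mul_right h _
  rcases (hp.dvd_mul).mp h2 with h3 | h3
  · exact gd5_prim_le Y p hp h3
  · rw [Prime.dvd_finset_prod_iff hp.prime] at h3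
    obtain ⟨q, hq, hpq⟩ := h3
    have hq' := Nat.mem_primeFactors.mp hq
    have hqY := gd5_prim_le Y q hq'.1 hq'.2.1
    have hq2 := hq'.1.two_le
    have := Nat.le_of_dvd (by omega) hpq
    omega

theorem gd5 (h1 : S_CO5) : S_GD5 := by
  intro M ℓ hM hℓ h5
  have hco := h1 ℓ hℓ h5
  set R := primorial ℓ with hR
  have hRpos : 0 < R := primorial_pos ℓ
  have hφpos : 0 < R.totient := Nat.totient_pos.mpr hRpos
  obtain ⟨a, ha⟩ := gd5_prim_dvd ℓ ℓ hℓ le_rfl
  rw [← hR] at ha
  have hapos : 0 < a := by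
    rcases Nat.eq_zero_or_pos a with h | h
    · subst h; simp at ha; omega
    · exact h
  set k0 := a * R ^ M * R.totient ^ (M - 1) with hk0
  have hk0pos : 0 < k0 := by positivity
  have hpf : k0.primeFactors = R.primeFactors := by
    ext p
    simp only [Nat.mem_primeFactors]
    constructor
    · rintro ⟨hp, hd, -⟩
      refine ⟨hp, ?_, hRpos.ne'⟩
      apply gd5_prim_dvd ℓ p hp
      rcases (hp.dvd_mul).mp hd with h | h
      · rcases (hp.dvd_mul).mp h with h | h
        · exact gd5_prim_le ℓ p hp (h.trans ⟨ℓ, by rw [← hR, ha, mul_comm]⟩)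
        · exact gd5_prim_le ℓ p hp (hp.dvd_of_dvd_pow h)
      · exact gd5_tot_le ℓ p hp (hp.dvd_of_dvd_pow h)
    · rintro ⟨hp, hd, -⟩
      refine ⟨hp, ?_, hk0pos.ne'⟩
      have h2 : p ∣ R ^ M := hd.trans (dvd_pow_self R (by omega))
      exact Dvd.dvd.mul_right (Dvd.dvd.mul_left h2 _) _
  have hkey : k0.totient * R = k0 * R.totient := by
    have e1 := Nat.totient_mul_prod_primeFactors k0
    have e2 := Nat.totient_mul_prod_primeFactors R
    rw [hpf] at e1
    have hP : 0 < ∏ p ∈ R.primeFactors, p :=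
      Finset.prod_pos (fun p hp => (Nat.prime_of_mem_primeFactors hp).pos)
    apply Nat.eq_of_mul_eq_mul_right hP
    calc k0.totient * R * ∏ p ∈ R.primeFactors, p
        = (k0.totient * ∏ p ∈ R.primeFactors, p) * R := by ring
      _ = (k0 * ∏ p ∈ R.primeFactors, (p - 1)) * R := by rw [e1]
      _ = k0 * (R * ∏ p ∈ R.primeFactors, (p - 1)) := by ring
      _ = k0 * (R.totient * ∏ p ∈ R.primeFactors, p) := by rw [e2]
      _ = _ := by ring
  have hmain : ℓ * k0.totient = (R * R.totient) ^ M := by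
    apply Nat.eq_of_mul_eq_mul_right hRpos
    calc ℓ * k0.totient * R = ℓ * (k0.totient * R) := by ring
      _ = ℓ * (k0 * R.totient) := by rw [hkey]
      _ = (ℓ * a) * R ^ M * (R.totient ^ (M - 1) * R.totient) := by rw [hk0]; ring
      _ = R * R ^ M * R.totient ^ M := by
          rw [← ha, ← pow_succ, Nat.sub_add_cancel (by omega)]
      _ = _ := by rw [mul_pow]; ring
  refine ⟨k0, R * R.totient, hk0pos, ?_, hmain, Nat.mul_pos hRpos hφpos, ?_⟩
  · -- k0 < ℓ * totient
    apply Nat.lt_of_mul_lt_mul_right (a := R)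
    calc k0 * R < k0 * (ℓ * R.totient) := Nat.mul_lt_mul_of_pos_left hco hk0pos
      _ = ℓ * (k0 * R.totient) := by ring
      _ = ℓ * (k0.totient * R) := by rw [hkey]
      _ = _ := by ring
  · intro p hp hd
    rcases (hp.dvd_mul).mp hd with h | h
    · exact gd5_prim_le ℓ p hp h
    · exact gd5_tot_le ℓ p hp h

end SAP
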