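import Pool.Agent.H18.SAP.Stmts

set_option autoImplicit false

namespace SAP
open Finset

private theorem gdg_two (h2 : S_GD2) (M T Y e : ℕ) (t q : Fin T → ℕ) (H : ℚ → Prop)
    (S : Finset (Fin T)) (hM : 2 ≤ M) (hY2 : 2 ≤ Y) (heY : e ≤ Y) (htY : ∀ a, t a ≤ Y)
    (hG : Gad M T 3 e t q) (H1 : H 1) (Hm : ∀ a b, H a → H b → H (a * b))
    (Hw : ∀ w : ℕ, 1 ≤ w → (∀ p : ℕ, p.Prime → p ∣ w → p ≤ Y) → H ((w : ℚ) ^ M))
    (hS : S.card = M)
    (HF : ∀ a ∈ S, ∀ b ∈ S, H (((t a * (t a).totient : ℕ) : ℚ) / ((t b * (t b).totient : ℕ) : ℚ))) :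
    ∃ k0 : ℕ, 0 < k0 ∧ k0 < 2 * k0.totient ∧ k0.Coprime 6 ∧ H ((2 * k0.totient : ℕ) : ℚ) := by
  obtain ⟨k0, hk0, hlt, hc, he⟩ := h2 M T e t q S (by omega) hG hS
  refine ⟨k0, hk0, hlt, hc, ?_⟩
  rw [he]
  obtain ⟨b, hb⟩ : S.Nonempty := by
    rw [← Finset.card_pos]; omega
  have htp : ∀ a, 0 < t a := fun a => by have := hG.ht a; omega
  have hFpos : ∀ a, 0 < t a * (t a).totient := fun a =>
    Nat.mul_pos (htp a) (Nat.totient_pos.mpr (htp a))
  have hFb : ((t b * (t b).totient : ℕ) : ℚ) ≠ 0 := by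
    have := (hFpos b).ne'
    exact_mod_cast this
  have e1 : (((2 * e ^ (M - 1)) ^ M * ∏ a ∈ S, (t a * (t a).totient) : ℕ) : ℚ) =
      (((2 * e ^ (M - 1) : ℕ) : ℚ) ^ M * (((t b * (t b).totient : ℕ) : ℚ) ^ M)) *
      ∏ a ∈ S, (((t a * (t a).totient : ℕ) : ℚ) / ((t b * (t b).totient : ℕ) : ℚ)) := by
    rw [Finset.prod_div_distrib, Finset.prod_const, hS, Nat.cast_mul, Nat.cast_pow, Nat.cast_prod]
    field_simp
  rw [e1]
  apply Hm
  · apply Hm
    · apply Hw
      · have := hG.he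
        exact Nat.mul_pos (by norm_num) (pow_pos this _)
      · intro p hp hd
        rcases (hp.dvd_mul).mp hd with h | h
        · exact (Nat.le_of_dvd (by norm_num) h).trans hY2
        · exact (Nat.le_of_dvd (by have := hG.he; omega) (hp.dvd_of_dvd_pow h)).trans heY
    · apply Hw
      · exact hFpos b
      · intro p hp hd
        rcases (hp.dvd_mul).mp hd with h | h
        · exact (Nat.le_of_dvd (htp b) h).trans (htY b)
        · exact ((Nat.le_of_dvd (Nat.totient_pos.mpr (htp b)) h).trans (Nat.totient_le _)).trans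
            (htY b)
  · have : ∀ U : Finset (Fin T), U ⊆ S →
        H (∏ a ∈ U, (((t a * (t a).totient : ℕ) : ℚ) / ((t b * (t b).totient : ℕ) : ℚ))) := by
      intro U
      induction U using Finset.induction_on with
      | empty => intro _; simpa using H1
      | insert a U ha ih =>
        intro hU
        rw [Finset.prod_insert ha]
        exact Hm _ _ (HF a (hU (Finset.mem_insert_self a U)) b hb)
          (ih ((Finset.subset_insert a U).trans hU))
    exact this S (Finset.Subset.refl S)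

theorem gdg (h1 : S_GD2) (h2 : S_GD5) : S_GDG := by
  intro M T Y e t q H S hM heY htY hG H1 Hm Hw hS HF ℓ hℓ hℓY
  have hY2 : 2 ≤ Y := hℓ.two_le.trans hℓY
  rcases Nat.lt_or_ge ℓ 5 with h5 | h5
  · obtain ⟨k0, hk0, hlt, hc, hH⟩ :=
      gdg_two h1 M T Y e t q H S hM hY2 heY htY hG H1 Hm Hw hS HF
    have h23 : ℓ = 2 ∨ ℓ = 3 := by
      have := hℓ.two_le
      interval_cases ℓ
      · left; rfl
      · right; rfl
      · exact absurd hℓ (by norm_num)
    rcases h23 with rfl | rfl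
    · exact ⟨k0, hk0, hlt, hH⟩
    · have hc3 : (3 ^ M).Coprime k0 := by
        apply Nat.Coprime.pow_left
        have : k0.Coprime 3 := Nat.Coprime.coprime_dvd_right (by norm_num : 3 ∣ 6) hc
        exact this.symm
      have ht : 3 * (3 ^ M * k0).totient = 3 ^ M * (2 * k0.totient) := by
        rw [Nat.totient_mul hc3, Nat.totient_prime_pow Nat.prime_three (by omega : 0 < M)]
        obtain ⟨m, rfl⟩ : ∃ m, M = m + 1 := ⟨M - 1, by omega⟩
        simp only [Nat.add_sub_cancel]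
        ring
      refine ⟨3 ^ M * k0, by positivity, ?_, ?_⟩
      · rw [ht]
        exact Nat.mul_lt_mul_of_pos_left hlt (by positivity)
      · rw [ht, Nat.cast_mul]
        apply Hm _ _ _ hH
        have := Hw 3 (by norm_num) (fun p hp hd => (Nat.le_of_dvd (by norm_num) hd).trans hℓY)
        simpa using this
  · obtain ⟨k0, w, hk0, hlt, he, hw, hws⟩ := h2 M ℓ hM hℓ h5
    refine ⟨k0, hk0, hlt, ?_⟩
    rw [he]
    have := Hw w hw (fun p hp hd => (hws p hp hd).trans hℓY)
    simpa using this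

end SAP
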