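import Pool.Agent.H18.SAP.Stmts

set_option autoImplicit false

namespace SAP
open Finset

private theorem tua_prim_pos (Y : ℕ) : 1 ≤ primorial Y := primorial_pos Y

private theorem tua_prim_dvd (Y p : ℕ) (hp : p.Prime) (hY : p ≤ Y) : p ∣ primorial Y := by
  unfold primorial
  apply Finset.dvd_prod_of_mem
  simp [hp, Nat.lt_succ_of_le hY]

private theorem tua_prim_le (Y p : ℕ) (hp : p.Prime) (h : p ∣ primorial Y) : p ≤ Y := by
  unfold primorial at h
  rw [Prime.dvd_finset_prod_iff hp.prime] at h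
  obtain ⟨q, hq, hpq⟩ := h
  simp only [Finset.mem_filter, Finset.mem_range] at hq
  have := (Nat.prime_dvd_prime_iff_eq hp hq.2).mp hpq
  omega

theorem tua : S_TUA := by
  intro n T Y M u F hY hM hF hFs
  refine ⟨?_, ?_, ?_, ?_⟩
  · rintro (p | f) i i' hii
    · show primorial Y * ((p.1 : ℕ) ^ (i : ℕ)) < primorial Y * ((p.1 : ℕ) ^ (i' : ℕ))
      apply Nat.mul_lt_mul_of_pos_left _ (tua_prim_pos Y)
      exact Nat.pow_lt_pow_right p.2.one_lt hii
    · show primorial Y * (F (f i) * 2 ^ (M * u * (i : ℕ))) <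
        primorial Y * (F (f i') * 2 ^ (M * u * (i' : ℕ)))
      apply Nat.mul_lt_mul_of_pos_left _ (tua_prim_pos Y)
      have h1 : (i : ℕ) + 1 ≤ (i' : ℕ) := hii
      have h2 : M * u * (i : ℕ) + u ≤ M * u * (i' : ℕ) := by
        calc M * u * (i : ℕ) + u ≤ M * u * (i : ℕ) + M * u := by
              have : 1 * u ≤ M * u := Nat.mul_le_mul_right u hM
              omega
          _ = M * u * ((i : ℕ) + 1) := by ring
          _ ≤ _ := Nat.mul_le_mul_left _ h1
      calc F (f i) * 2 ^ (M * u * (i : ℕ)) < 2 ^ u * 2 ^ (M * u * (i : ℕ)) :=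
            Nat.mul_lt_mul_of_pos_right (hF (f i)).2 (by positivity)
        _ = 2 ^ (M * u * (i : ℕ) + u) := by rw [pow_add, mul_comm]
        _ ≤ 2 ^ (M * u * (i' : ℕ)) := Nat.pow_le_pow_right (by norm_num) h2
        _ = 1 * 2 ^ (M * u * (i' : ℕ)) := (one_mul _).symm
        _ ≤ _ := Nat.mul_le_mul_right _ (hF (f i')).1
  · rintro (p | f) i
    · show 1 ≤ primorial Y * ((p.1 : ℕ) ^ (i : ℕ))
      exact Nat.mul_pos (tua_prim_pos Y) (pow_pos p.2.pos _)
    · show 1 ≤ primorial Y * (F (f i) * 2 ^ (M * u * (i : ℕ)))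
      exact Nat.mul_pos (tua_prim_pos Y) (Nat.mul_pos (hF (f i)).1 (by positivity))
  · rintro (p' | f) i p hp hpY
    · exact Dvd.dvd.mul_right (tua_prim_dvd Y p hp hpY) _
    · exact Dvd.dvd.mul_right (tua_prim_dvd Y p hp hpY) _
  · rintro (p' | f) i p hp hd
    · change p ∣ primorial Y * ((p'.1 : ℕ) ^ (i : ℕ)) at hd
      rcases (hp.dvd_mul).mp hd with h | h
      · exact tua_prim_le Y p hp h
      · have := hp.dvd_of_dvd_pow h
        have h2 := Nat.le_of_dvd p'.2.pos this
        have h3 := p'.1.2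
        omega
    · change p ∣ primorial Y * (F (f i) * 2 ^ (M * u * (i : ℕ))) at hd
      rcases (hp.dvd_mul).mp hd with h | h
      · exact tua_prim_le Y p hp h
      · rcases (hp.dvd_mul).mp h with h | h
        · exact hFs _ p hp h
        · have := Nat.le_of_dvd (by norm_num) (hp.dvd_of_dvd_pow h)
          omega

end SAP
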